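import Pool.Agent.Helper54_Busemann.Final

/-!
# Manifold points in locally Busemann spaces with a local measure contraction property

Affirmative answer to Q1: every nonempty locally Busemann space `X` with a measure `m` (Borel, finite
on bounded sets, positive on nonempty open sets) satisfying local MCP(K,N) for some `K ≤ 0`, `N ≥ 1`
contains a manifold point; in fact every nonempty open subset of `X` contains one.

Idea of the proof. On a small ball MCP gives non-branching, doubling and compactness. A finite
dimensional compact metric space has a homotopically stable point (by a nerve construction and
Brouwer's theorem). Near a stable point all geodesics extend by a uniform amount. By Dini and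
Baire, near a generic such point the contractions by `1/2` are homotheties up to `o(τ)`, so that an
ultralimit tangent space is a metric midpoint space with exact homotheties, which is a normed space
by a Mazur–Ulam argument, and the logarithm map is a homeomorphism onto a ball of it.
-/

set_option autoImplicit false

namespace Pool.Agent.Results.MP_898aa9_gt.ManifoldPoints

open Set MeasureTheory Pool.Agent.Helper54_Busemann

/-- Let `X` be a locally Busemann space and `m` a Borel measure on `X`, finite on bounded sets and
positive on nonempty open sets, such that local MCP(K,N) holds with `K ≤ 0` and `N ≥ 1`. Then every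
nonempty open set `W` (for instance `W = X` if `X` is nonempty) contains a manifold point. -/
theorem result {X : Type*} [MetricSpace X] [MeasurableSpace X] [BorelSpace X] (m : Measure X)
    (hfin : ∀ s : Set X, Bornology.IsBounded s → m s < ⊤)
    (hpos : ∀ U : Set X, IsOpen U → U.Nonempty → 0 < m U)
    (K N : ℝ) (hK : K ≤ 0) (hN : 1 ≤ N)
    (hX : LocallyBusemann X) (hM : LocalMcp m K N)
    (W : Set X) (hW : IsOpen W) (hWne : W.Nonempty) :
    ∃ x ∈ W, IsManifoldPoint x := by
  obtain ⟨x, hxW, hx⟩ :=
    (manifold_points_dense hfin hpos hK hN hX hM).inter_open_nonempty W hW hWne
  exact ⟨x, hxW, hx⟩

end Pool.Agent.Results.MP_898aa9_gt.ManifoldPoints
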